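import Mathlib

/-!
# Rectangles of total area 3 cover the unit square by translation

Fixed orientation, translations only.  Order the rectangles by height and lay them in rows of
width at least `1`: if the rows covered a height less than `1`, the total area would be less
than `3`.
-/

namespace Pool.Agent.Results.MP_6800d9_co.AreaThree

/-- The closed rectangle of width `w` and height `h` with sides parallel to the axes and lower
left corner `v`, that is, the translate by `v` of `[0, w] × [0, h]`. -/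
def rect (v : ℝ × ℝ) (w h : ℝ) : Set (ℝ × ℝ) :=
  Set.Icc v.1 (v.1 + w) ×ˢ Set.Icc v.2 (v.2 + h)

/-- The rectangles with indices in `s` have translates that cover `S`. -/
def Cov {ι : Type*} (a b : ι → ℝ) (s : Finset ι) (S : Set (ℝ × ℝ)) : Prop :=
  ∃ v : ι → ℝ × ℝ, ∀ x ∈ S, ∃ i ∈ s, x ∈ rect (v i) (a i) (b i)

section

variable {ι : Type*} {a b : ι → ℝ}

lemma cov_union [DecidableEq ι] {s t : Finset ι} {S T : Set (ℝ × ℝ)} (hd : Disjoint s t)
    (hs : Cov a b s S) (ht : Cov a b t T) : Cov a b (s ∪ t) (S ∪ T) := by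
  obtain ⟨v, hv⟩ := hs
  obtain ⟨w, hw⟩ := ht
  refine ⟨fun i => if i ∈ s then v i else w i, ?_⟩
  rintro x (hx | hx)
  · obtain ⟨i, hi, h⟩ := hv x hx
    exact ⟨i, Finset.mem_union_left _ hi, by simpa [hi] using h⟩
  · obtain ⟨i, hi, h⟩ := hw x hx
    have hn : i ∉ s := fun h' => (Finset.disjoint_left.mp hd h') hi
    exact ⟨i, Finset.mem_union_right _ hi, by simpa [hn] using h⟩

lemma cov_mono {s : Finset ι} {S T : Set (ℝ × ℝ)} (h : S ⊆ T) (hs : Cov a b s T) :
    Cov a b s S := by
  obtain ⟨v, hv⟩ := hs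
  exact ⟨v, fun x hx => hv x (h hx)⟩

/-- Rectangles laid side by side. -/
lemma cov_row [DecidableEq ι] {h : ℝ} {s : Finset ι} (hs : s.Nonempty) (hb : ∀ i ∈ s, h ≤ b i) :
    ∀ v : ℝ × ℝ, Cov a b s (rect v (∑ i ∈ s, a i) h) := by
  induction hs using Finset.Nonempty.cons_induction with
  | singleton i =>
    intro v
    refine ⟨fun _ => v, fun x hx => ⟨i, by simp, ?_⟩⟩
    simp only [rect, Finset.sum_singleton, Set.mem_prod, Set.mem_Icc] at hx ⊢
    have := hb i (by simp)
    exact ⟨hx.1, hx.2.1, by linarith [hx.2.2]⟩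
  | cons i s hi hs ih =>
    intro v
    have h1 : Cov a b {i} (rect v (a i) h) := by
      refine ⟨fun _ => v, fun x hx => ⟨i, by simp, ?_⟩⟩
      simp only [rect, Set.mem_prod, Set.mem_Icc] at hx ⊢
      have := hb i (by simp)
      exact ⟨hx.1, hx.2.1, by linarith [hx.2.2]⟩
    have h2 := ih (fun j hj => hb j (by simp [hj])) (v + (a i, 0))
    have h3 := cov_union (by simpa using hi) h1 h2
    rw [Finset.cons_eq_insert, Finset.insert_eq]
    refine cov_mono ?_ h3
    intro x hx
    rw [← Finset.insert_eq, Finset.sum_insert hi] at hx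
    simp only [rect, Set.mem_prod, Set.mem_Icc, Set.mem_union, Prod.fst_add, Prod.snd_add,
      add_zero] at hx ⊢
    rcases le_total x.1 (v.1 + a i) with h' | h'
    · exact Or.inl ⟨⟨hx.1.1, h'⟩, hx.2⟩
    · exact Or.inr ⟨⟨h', by linarith [hx.1.2]⟩, hx.2⟩

/-- The main induction: rows of decreasing heights. -/
lemma cov_main [DecidableEq ι] (n : ℕ) : ∀ (s : Finset ι) (H q : ℝ) (v : ℝ × ℝ), s.card = n → 0 < H → 0 ≤ q →
    (∀ i ∈ s, 0 < a i ∧ a i ≤ 1) → (∀ i ∈ s, 0 < b i ∧ b i ≤ H) →
    H + 2 * q ≤ ∑ i ∈ s, a i * b i → Cov a b s (rect v 1 q) := by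
  induction n using Nat.strong_induction_on with
  | _ n ih =>
    intro s H q v hn hH hq ha hb hsum
    -- the whole family has total width at least one
    have hw : 1 ≤ ∑ i ∈ s, a i := by
      have h1 : ∑ i ∈ s, a i * b i ≤ (∑ i ∈ s, a i) * H := by
        rw [Finset.sum_mul]
        exact Finset.sum_le_sum fun i hi =>
          mul_le_mul_of_nonneg_left (hb i hi).2 (ha i hi).1.le
      have h2 : 1 * H ≤ (∑ i ∈ s, a i) * H := by linarith
      exact le_of_mul_le_mul_right h2 hH
    -- a smallest set of tallest rectangles of total width at least one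
    let F : Finset (Finset ι) := s.powerset.filter fun T =>
      1 ≤ ∑ i ∈ T, a i ∧ ∀ i ∈ T, ∀ j ∈ s \ T, b j ≤ b i
    have hF : F.Nonempty := by
      refine ⟨s, ?_⟩
      simp only [F, Finset.mem_filter, Finset.mem_powerset]
      exact ⟨Finset.Subset.refl s, hw, fun i _ j hj => absurd (Finset.mem_sdiff.mp hj).1
        (Finset.mem_sdiff.mp hj).2⟩
    obtain ⟨T, hT, hmin⟩ := F.exists_min_image (fun T => T.card) hF
    simp only [F, Finset.mem_filter, Finset.mem_powerset] at hT
    obtain ⟨hTs, hTw, hTb⟩ := hT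
    have hTn : T.Nonempty := by
      rw [Finset.nonempty_iff_ne_empty]
      rintro rfl
      simp at hTw
      linarith
    obtain ⟨r, hr, hrb⟩ := T.exists_min_image b hTn
    have hlt : ∑ i ∈ T.erase r, a i < 1 := by
      by_contra hcon
      have hmem : T.erase r ∈ F := by
        simp only [F, Finset.mem_filter, Finset.mem_powerset]
        refine ⟨(Finset.erase_subset _ _).trans hTs, not_lt.mp hcon, ?_⟩
        intro i hi j hj
        have hiT := Finset.mem_of_mem_erase hi
        by_cases hjT : j ∈ T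
        · have : j = r := by
            by_contra hne
            exact (Finset.mem_sdiff.mp hj).2 (Finset.mem_erase.mpr ⟨hne, hjT⟩)
          rw [this]
          exact hrb i hiT
        · exact hTb i hiT j (Finset.mem_sdiff.mpr ⟨(Finset.mem_sdiff.mp hj).1, hjT⟩)
      have h1 := hmin _ hmem
      have h2 := Finset.card_erase_lt_of_mem hr
      omega
    have hrs := hTs hr
    -- area of the row
    have harea : ∑ i ∈ T, a i * b i ≤ H + b r := by
      rw [← Finset.add_sum_erase T _ hr]
      have h1 : ∑ i ∈ T.erase r, a i * b i ≤ (∑ i ∈ T.erase r, a i) * H := by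
        rw [Finset.sum_mul]
        refine Finset.sum_le_sum fun i hi => ?_
        have his := hTs (Finset.mem_of_mem_erase hi)
        exact mul_le_mul_of_nonneg_left (hb i his).2 (ha i his).1.le
      have h2 : a r * b r ≤ 1 * b r :=
        mul_le_mul_of_nonneg_right (ha r hrs).2 (hb r hrs).1.le
      nlinarith
    have hrow : Cov a b T (rect v 1 (b r)) := by
      refine cov_mono ?_ (cov_row (a := a) hTn hrb v)
      intro x hx
      simp only [rect, Set.mem_prod, Set.mem_Icc] at hx ⊢
      exact ⟨⟨hx.1.1, by linarith [hx.1.2]⟩, hx.2⟩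
    have hdis : Disjoint T (s \ T) := Finset.disjoint_sdiff
    have hun : T ∪ (s \ T) = s := Finset.union_sdiff_of_subset hTs
    rcases le_total q (b r) with hqr | hqr
    · -- one row is enough
      obtain ⟨w, hw'⟩ := hrow
      refine ⟨w, fun x hx => ?_⟩
      have hx' : x ∈ rect v 1 (b r) := by
        simp only [rect, Set.mem_prod, Set.mem_Icc] at hx ⊢
        exact ⟨hx.1, hx.2.1, by linarith [hx.2.2]⟩
      obtain ⟨i, hi, h⟩ := hw' x hx'
      exact ⟨i, hTs hi, h⟩
    · have hcard : (s \ T).card < n := by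
        rw [← hn]
        exact Finset.card_lt_card (Finset.sdiff_ssubset hTs hTn)
      have hsplit : ∑ i ∈ s \ T, a i * b i + ∑ i ∈ T, a i * b i = ∑ i ∈ s, a i * b i :=
        Finset.sum_sdiff hTs
      have hrest := ih _ hcard (s \ T) (b r) (q - b r) (v + (0, b r)) rfl (hb r hrs).1
        (by linarith) (fun i hi => ha i (Finset.mem_sdiff.mp hi).1)
        (fun i hi => ⟨(hb i (Finset.mem_sdiff.mp hi).1).1, hTb r hr i hi⟩) (by linarith)
      have h3 := cov_union hdis hrow hrest
      rw [hun] at h3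
      refine cov_mono ?_ h3
      intro x hx
      simp only [rect, Set.mem_prod, Set.mem_Icc, Set.mem_union, Prod.fst_add, Prod.snd_add,
        add_zero] at hx ⊢
      rcases le_total x.2 (v.2 + b r) with h' | h'
      · exact Or.inl ⟨hx.1, hx.2.1, h'⟩
      · exact Or.inr ⟨hx.1, h', by linarith [hx.2.2]⟩

/-- The case where one of the rectangles has width exactly one. -/
lemma cov_width (ha : ∀ i, 0 < a i ∧ a i ≤ 1) (hb : ∀ i, 0 < b i ∧ b i ≤ 1) (k : ι)
    (hk : a k = 1) (hs : 3 ≤ ∑' i, ENNReal.ofReal (a i * b i)) :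
    ∃ v : ι → ℝ × ℝ, Set.Icc (0 : ℝ) 1 ×ˢ Set.Icc (0 : ℝ) 1 ⊆ ⋃ i, rect (v i) (a i) (b i) := by
  classical
  have hbk := (hb k).1
  -- a finite subfamily of total area more than `3 - b k`
  have hlt : ENNReal.ofReal (3 - b k) < ∑' i, ENNReal.ofReal (a i * b i) := by
    refine lt_of_lt_of_le ?_ hs
    have h3 : (3 : ENNReal) = ENNReal.ofReal 3 := by simp
    rw [h3]
    exact (ENNReal.ofReal_lt_ofReal_iff (by norm_num)).mpr (by linarith)
  rw [ENNReal.tsum_eq_iSup_sum] at hlt
  obtain ⟨F, hF⟩ := lt_iSup_iff.mp hlt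
  have hF' : 3 - b k < ∑ i ∈ F, a i * b i := by
    rw [← ENNReal.ofReal_sum_of_nonneg
      (fun i _ => mul_nonneg (ha i).1.le (hb i).1.le)] at hF
    exact (ENNReal.ofReal_lt_ofReal_iff_of_nonneg (by linarith [(hb k).2])).mp hF
  have hG : 3 - 2 * b k ≤ ∑ i ∈ F.erase k, a i * b i := by
    by_cases hkF : k ∈ F
    · have := Finset.add_sum_erase F (fun i => a i * b i) hkF
      simp only [hk, one_mul] at this
      linarith
    · rw [Finset.erase_eq_of_notMem hkF]
      linarith
  have h1 : Cov a b (F.erase k) (rect (0, b k) 1 (1 - b k)) :=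
    cov_main (F.erase k).card (F.erase k) 1 (1 - b k) (0, b k) rfl one_pos
      (by linarith [(hb k).2]) (fun i _ => ha i) (fun i _ => hb i) (by linarith)
  have h2 : Cov a b {k} (rect (0, 0) 1 (b k)) :=
    ⟨fun _ => (0, 0), fun x hx => ⟨k, by simp, by rw [hk]; exact hx⟩⟩
  obtain ⟨v, hv⟩ := cov_union (by simp) h2 h1
  refine ⟨v, fun x hx => ?_⟩
  have hx' : x ∈ rect (0, 0) 1 (b k) ∪ rect (0, b k) 1 (1 - b k) := by
    simp only [rect, Set.mem_prod, Set.mem_Icc, Set.mem_union] at hx ⊢
    rcases le_total x.2 (b k) with h' | h'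
    · exact Or.inl ⟨⟨hx.1.1, by linarith [hx.1.2]⟩, hx.2.1, by linarith⟩
    · exact Or.inr ⟨⟨hx.1.1, by linarith [hx.1.2]⟩, h', by linarith [hx.2.2]⟩
  obtain ⟨i, _, hi⟩ := hv x hx'
  exact Set.mem_iUnion.mpr ⟨i, hi⟩

end

/-- **Main result (Moser's question, answered in the affirmative).**  Let `(a i × b i)` be a
family, finite or infinite, of rectangles with sides parallel to the axes, all of whose sides
are at most `1` and some side of which equals `1`.  If their total area is at least `3`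
(in particular if it is exactly `3`), then suitable translates of them cover the unit square. -/
theorem result {ι : Type*} (a b : ι → ℝ) (ha : ∀ i, 0 < a i ∧ a i ≤ 1) (hb : ∀ i, 0 < b i ∧ b i ≤ 1)
    (h1 : ∃ i, a i = 1 ∨ b i = 1) (hs : 3 ≤ ∑' i, ENNReal.ofReal (a i * b i)) :
    ∃ v : ι → ℝ × ℝ,
      Set.Icc (0 : ℝ) 1 ×ˢ Set.Icc (0 : ℝ) 1 ⊆ ⋃ i, rect (v i) (a i) (b i) := by
  obtain ⟨k, hk | hk⟩ := h1
  · exact cov_width ha hb k hk hs
  · obtain ⟨v, hv⟩ := cov_width (a := b) (b := a) hb ha k hk (by simpa only [mul_comm] using hs)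
    refine ⟨fun i => (v i).swap, fun x hx => ?_⟩
    obtain ⟨i, hi⟩ := Set.mem_iUnion.mp (hv (show x.swap ∈ _ from ⟨hx.2, hx.1⟩))
    exact Set.mem_iUnion.mpr ⟨i, hi.2, hi.1⟩

end Pool.Agent.Results.MP_6800d9_co.AreaThree
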